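import Pool.Agent.R977.FPUpper
import Pool.Agent.R977.FPLower
import Pool.Agent.R977.FPWeak

/-!
# MP_bd876b_pr, Q1 (negated form)

There are `d ≥ 2` and a distribution `F` on `Sym(d)` such that almost surely the measures `μ_n`
converge weakly (to the permuton `μ_F`), and `H_n(μ_F) / n` does not converge.

The example: `d = 1024 ^ 2`, the digits in base `d` are pairs `(u, v)` of half-digits in base `1024`, and
`F` is the point mass at the permutation `(u, v) ↦ (v, u)`.  For `n = d ^ k` points we show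
`H_n ≤ (5/2) log 2 · n` and for `n = 20 d ^ k` points `H_n ≥ (14/5) log 2 · n`.

The definitions are in `Pool/Agent/R977/FPDefs.lean`.
-/

open MeasureTheory ProbabilityTheory Filter Topology
open scoped BigOperators Nat ENNReal

namespace Pool.Agent.Results.MP_bd876b_pr.SamplingEntropyOscillates

open Pool.Agent.R977.FP

lemma weakLimit_unique {m : ℕ → Measure (ℝ × ℝ)} {μ μ' : Measure (ℝ × ℝ)} [IsProbabilityMeasure μ]
    (h : IsWeakLimit m μ) (h' : IsWeakLimit m μ') : μ' = μ := by
  have h1 : μ'.real Set.univ = 1 := by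
    have e1 := h (BoundedContinuousFunction.const _ (1:ℝ))
    have e2 := h' (BoundedContinuousFunction.const _ (1:ℝ))
    have e3 := tendsto_nhds_unique e1 e2
    simpa using e3.symm
  have : IsFiniteMeasure μ' := by
    constructor
    rw [lt_top_iff_ne_top]
    intro hh
    simp [Measure.real, hh] at h1
  exact ext_of_forall_integral_eq_of_IsFiniteMeasure (fun f => tendsto_nhds_unique (h' f) (h f))

lemma upper (k : ℕ) :
    samplingEntropy (mu 1024) ((1024 * 1024) ^ k) / (((1024 * 1024) ^ k : ℕ) : ℝ) ≤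
      5 / 2 * Real.log 2 := by
  have h := entropy_le (N := 1024) (by norm_num) ((1024 * 1024) ^ k) k
  have hM : (0:ℝ) < (((1024 * 1024) ^ k : ℕ) : ℝ) := by positivity
  rw [div_le_iff₀ hM]
  refine h.trans (le_of_eq ?_)
  push_cast
  have : ((1024:ℝ) * 1024) ^ k ≠ 0 := by positivity
  field_simp
  ring

lemma lower (k : ℕ) :
    14 / 5 * Real.log 2 ≤
      samplingEntropy (mu 1024) (20 * (1024 * 1024) ^ k) / ((20 * (1024 * 1024) ^ k : ℕ) : ℝ) := by
  have h := entropy_ge (N := 1024) (by norm_num) 20 k (20 * (1024 * 1024) ^ k) (by norm_num) rfl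
  have hM : (0:ℝ) < ((20 * (1024 * 1024) ^ k : ℕ) : ℝ) := by positivity
  rw [le_div_iff₀ hM]
  refine le_trans ?_ h
  have hlog2 : 0 < Real.log 2 := Real.log_pos (by norm_num)
  have h1 : 61 * Real.log 2 ≤ Real.log (20 ! : ℝ) := by
    have : (61 : ℝ) * Real.log 2 = Real.log (2 ^ 61) := by rw [Real.log_pow]; norm_num
    rw [this]
    refine Real.log_le_log (by norm_num) ?_
    norm_num [Nat.factorial]
  have h2 : Real.log ((20 : ℕ) : ℝ) ≤ 5 * Real.log 2 := by
    have : (5 : ℝ) * Real.log 2 = Real.log (2 ^ 5) := by rw [Real.log_pow]; norm_num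
    rw [this]
    refine Real.log_le_log (by norm_num) ?_
    norm_num
  push_cast at h2 ⊢
  set D : ℝ := (1048576:ℝ) ^ k with hD
  have hDpos : 0 < D := by positivity
  have e1 : (20 * D) ^ 2 * (2 * (D * 1024)⁻¹) = D * (25 / 32) := by
    field_simp
    norm_num
  rw [e1]
  have e2 : D * (25 / 32) * Real.log 20 ≤ D * (25 / 32) * (5 * Real.log 2) := by gcongr
  have e3 : D * (61 * Real.log 2) ≤ D * Real.log (20 ! : ℝ) := by gcongr
  have e4 : 0 < D * Real.log 2 := mul_pos hDpos hlog2
  generalize Real.log (20 ! : ℝ) = F at e3 ⊢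
  generalize Real.log (20 : ℝ) = G at e2 ⊢
  generalize Real.log (2 : ℝ) = H at e2 e3 e4 ⊢
  have e5 : 14 / 5 * H * (20 * D) = 56 * (D * H) := by ring
  have e6 : D * (61 * H) = 61 * (D * H) := by ring
  have e7 : D * (25 / 32) * (5 * H) = 125 / 32 * (D * H) := by ring
  rw [e5]
  rw [e6] at e3
  rw [e7] at e2
  linarith

/-- **Negated form of Q1.**  For some `d ≥ 2` and some probability distribution `F` on `Sym(d)`: for
almost every labelling `L` of the rooted `d`-ary tree by independent permutations with law `F`, the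
measures `μ_n = approx L n` have a weak limit `μ` (which is unique) and `H_n(μ)/n` does not converge. -/
theorem result : ∃ d : ℕ, 2 ≤ d ∧ ∃ F : PMF (Equiv.Perm (Fin d)),
    ∀ᵐ L ∂(Measure.infinitePi (fun _ : List (Fin d) => F.toMeasure)),
      ∃ μ : Measure (ℝ × ℝ), IsProbabilityMeasure μ ∧ IsWeakLimit (approx L) μ ∧
        (∀ μ' : Measure (ℝ × ℝ), IsWeakLimit (approx L) μ' → μ' = μ) ∧
        ¬ ∃ c : ℝ, Tendsto (fun n : ℕ => samplingEntropy μ n / n) atTop (𝓝 c) := by
  refine ⟨1024 * 1024, by norm_num, PMF.pure (swapPerm 1024), ?_⟩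
  have h0 : (fun _ : List (Fin (1024 * 1024)) => (PMF.pure (swapPerm 1024)).toMeasure) =
      fun _ => Measure.dirac (swapPerm 1024) := by
    funext _
    exact PMF.toMeasure_pure _
  rw [h0, Measure.infinitePi_dirac]
  have : MeasurableSingletonClass (Equiv.Perm (Fin (1024 * 1024))) := ⟨fun _ => trivial⟩
  have hae : ∀ᵐ L ∂(Measure.dirac (fun _ : List (Fin (1024 * 1024)) => swapPerm 1024)),
      L = fun _ => swapPerm 1024 := by
    rw [ae_dirac_eq]
    exact rfl
  filter_upwards [hae] with L hL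
  subst hL
  have hN : 1 < 1024 := by norm_num
  have hW := weakLimit (N := 1024) hN
  refine ⟨mu 1024, inferInstance, hW, fun μ' h' => weakLimit_unique hW h', ?_⟩
  rintro ⟨c, hc⟩
  have hk : Tendsto (fun k : ℕ => (1024 * 1024) ^ k) atTop atTop :=
    tendsto_pow_atTop_atTop_of_one_lt (by norm_num)
  have hk2 : Tendsto (fun k : ℕ => 20 * (1024 * 1024) ^ k) atTop atTop :=
    hk.const_mul_atTop' (by norm_num)
  have h1 : c ≤ 5 / 2 * Real.log 2 := le_of_tendsto' (hc.comp hk) (fun k => upper k)
  have h2 : 14 / 5 * Real.log 2 ≤ c := ge_of_tendsto' (hc.comp hk2) (fun k => lower k)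
  have hlog2 : 0 < Real.log 2 := Real.log_pos (by norm_num)
  linarith

end Pool.Agent.Results.MP_bd876b_pr.SamplingEntropyOscillates
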